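import Pool.Agent.H37.CNK.Stmts

/-! Row AVG of board cnk (MP_b57703_ag): the averaging lemma. -/

set_option autoImplicit false

namespace Pool.CND

open Finset

theorem avg_thm (hTHT : S_THT) (hBAS : S_BAS) : S_AVG := by
  intro p k L G _ _ _ _ _ _ ρ t P M F B hc hM hF hB
  obtain ⟨θ, T, hθ0, hθM, hθo, hT, hsum⟩ := hTHT p k L G ρ t P M hc hM
  have hfix : ∀ g : G, Fixes P (ρ g) := (hBAS p k L G ρ t P hc).2.1
  have hcos : ∀ s s' : G, s⁻¹ * s' ∈ M → ρ s' (θ * F) = ρ s (θ * F) := by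
    intro s s' h
    have e : s' = s * (s⁻¹ * s') := by group
    have e2 : ρ s' (θ * F) = ρ s (ρ (s⁻¹ * s') (θ * F)) := by
      conv_lhs => rw [e, map_mul ρ]
      rfl
    rw [e2, map_mul (ρ (s⁻¹ * s')), hθM _ h, hF _ h]
  choose r hr hr' using hT
  have hrT : ∀ x, r x ∈ T := fun x => (hr x).1
  have hrM : ∀ x, (r x)⁻¹ * x ∈ M := fun x => (hr x).2
  have hru : ∀ x s, s ∈ T → s⁻¹ * x ∈ M → s = r x := fun x s h1 h2 => hr' x s ⟨h1, h2⟩
  have hinv : ∀ g s : G, s ∈ T → r (g⁻¹ * r (g * s)) = s := by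
    intro g s hs
    refine (hru _ s hs ?_).symm
    have h1 := M.inv_mem (hrM (g * s))
    have e : ((r (g * s))⁻¹ * (g * s))⁻¹ = s⁻¹ * (g⁻¹ * r (g * s)) := by group
    rwa [e] at h1
  refine ⟨∑ s ∈ T, ρ s (θ * F), ?_, ?_⟩
  · rw [← hc.cov.fixed]
    intro g
    rw [map_sum]
    refine Finset.sum_nbij' (fun s => r (g * s)) (fun s => r (g⁻¹ * s)) (fun s _ => hrT _)
      (fun s _ => hrT _) (fun s hs => hinv g s hs) (fun s hs => ?_) (fun s _ => ?_)
    · have := hinv g⁻¹ s hs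
      rwa [inv_inv] at this
    · rw [← hcos _ _ (hrM (g * s)), map_mul ρ]
      rfl
  · have e : F - ∑ s ∈ T, ρ s (θ * F) = ∑ s ∈ T, ρ s θ * (-(ρ s F - F)) := by
      calc F - ∑ s ∈ T, ρ s (θ * F) = (∑ s ∈ T, ρ s θ) * F - ∑ s ∈ T, ρ s (θ * F) := by
            rw [hsum, one_mul]
        _ = ∑ s ∈ T, ρ s θ * (-(ρ s F - F)) := by
            rw [sum_mul, ← sum_sub_distrib]
            refine sum_congr rfl fun s _ => ?_
            rw [map_mul (ρ s)]
            ring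
    rw [e]
    refine P.ge_sum _ _ _ fun s _ => ?_
    have h1 : P.Ge (ρ s θ) (-So P ρ M) := Or.inr (by rw [hfix s θ hθ0, hθo])
    have h2 := P.ge_mul h1 (P.ge_neg (hB s))
    exact P.ge_mono h2 (by linarith)

end Pool.CND
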