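import Pool.Agent.H37.CNK.Stmts

/-! Row WCO of board cnk (MP_b57703_ag): the order of `wc y (y ^ p - y)`. -/

set_option autoImplicit false

namespace Pool.CND

open Finset

theorem wco_ge_pow {k L : Type} [Field k] [Field L] [Algebra k L] (P : Place k L) {x : L} {n : ℤ}
    (h : P.Ge x n) (m : ℕ) : P.Ge (x ^ m) (m * n) := by
  induction m with
  | zero =>
    right
    simp [P.ord_one]
  | succ m ih =>
    rw [pow_succ]
    refine P.ge_mono (P.ge_mul ih h) ?_
    push_cast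
    linarith

theorem wco_thm : S_WCO := by
  intro p k L _ _ _ P y hp _ hy ho
  unfold wc
  apply P.ge_neg
  refine P.ge_sum _ _ _ fun i hi => ?_
  rw [mem_Ico] at hi
  have hp1 : (1 : ℤ) ≤ p := by exact_mod_cast hp.one_le
  have h1 : P.Ge (((p.choose i / p : ℕ) : L)) 0 := by
    have := P.ge_const (L := L) ((p.choose i / p : ℕ) : k)
    rwa [map_natCast] at this
  have h2 : P.Ge (y ^ i) (i * P.ord y) := wco_ge_pow P (P.ge_ord y) i
  have h3 : P.Ge (y ^ p - y) (p * P.ord y) := by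
    refine P.ge_sub (wco_ge_pow P (P.ge_ord y) p) (P.ge_mono (P.ge_ord y) ?_)
    nlinarith
  have h4 := P.ge_mul (P.ge_mul h1 h2) (wco_ge_pow P h3 (p - i))
  refine P.ge_mono h4 ?_
  have hi' : ((p - i : ℕ) : ℤ) = (p : ℤ) - i := by
    rw [Nat.cast_sub hi.2.le]
  rw [hi']
  have hi1 : (0 : ℤ) ≤ (i : ℤ) - 1 := by
    have : (1 : ℤ) ≤ i := by exact_mod_cast hi.1
    linarith
  have h5 : 0 ≤ ((i : ℤ) - 1) * (((p : ℤ) - 1) * (-P.ord y)) :=
    mul_nonneg hi1 (mul_nonneg (by linarith) (by linarith))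
  nlinarith

end Pool.CND
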